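import Pool.Agent.TH327.NStarCCC
import Pool.Agent.W684.FM.Ambient

/-!
# Under Martin's axiom the set `F` of a nowhere dense configuration is never c.c.c. over Fin

* There is a preordered set of forcing conditions which preserves all cardinals and forces
  Martin's axiom for `ℵ₁` dense sets (this part is taken from `Pool.Agent.W684.FM`, where the
  forcing language is explained).
* Under Martin's axiom for `ℵ₁` dense sets, in every nowhere dense configuration `(T, A, F, ψ)`
  the set `F` is not c.c.c. over Fin, for automorphisms `T` (Q1), for isomorphic embeddings `T`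
  (Q2), and even for arbitrary bounded linear operators `T` on `C(ℕ*)`.

`NStar` is `ℕ* = βℕ ∖ ℕ` (non-principal ultrafilters with the topology of `βℕ`), `star f` is the
function `f*`, `remainder A` is `A*`, `IsConfiguration T A F ψ` lists the conditions on
`(T, A, F, ψ)` in the definition of a nowhere dense configuration other than the one that `T` is an
automorphism, and `CCCOverFin F` says that `F` is c.c.c. over Fin.
-/

set_option autoImplicit false

namespace Pool.Agent.Results.MP_f7fc44_an.MartinNotCCC

open Cardinal Pool.Agent.W684 Pool.Agent.Helper669.Forcing Pool.Agent.W684.FM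
open Pool.Agent.TH327.NStarCCC

theorem result :
    -- Martin's axiom for `ℵ₁` dense sets can be forced
    (∃ (P : Type) (_ : Preorder P), Nonempty P ∧ ∀ p : P,
      p ∈ CardinalsPreserved.{0, 0} P ∧ p ∈ OmegaOnePreserved P ∧ p ∈ MartinHolds P Om1) ∧
    (MartinFor Om1 ↔ MartinAxiomAleph1) ∧
    (MartinAxiomAleph1 →
      -- Q1: automorphisms
      (∀ (T : C(NStar, ℝ) →L[ℝ] C(NStar, ℝ)) (A : Set ℕ) (F : Set NStar) (ψ : F → NStar),
        Function.Bijective T → IsConfiguration T A F ψ → ¬ CCCOverFin F) ∧
      -- Q2: isomorphic embeddings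
      (∀ (T : C(NStar, ℝ) →L[ℝ] C(NStar, ℝ)) (A : Set ℕ) (F : Set NStar) (ψ : F → NStar),
        (∃ c : ℝ, 0 < c ∧ ∀ g : C(NStar, ℝ), c * ‖g‖ ≤ ‖T g‖) → IsConfiguration T A F ψ →
          ¬ CCCOverFin F) ∧
      -- arbitrary bounded linear operators
      (∀ (T : C(NStar, ℝ) →L[ℝ] C(NStar, ℝ)) (A : Set ℕ) (F : Set NStar) (ψ : F → NStar),
        IsConfiguration T A F ψ → ¬ CCCOverFin F)) :=
  ⟨exists_forcing Om1, martinFor_om1_iff, fun hMA =>
    ⟨fun _ _ _ _ _ h => main hMA h, fun _ _ _ _ _ h => main hMA h, fun _ _ _ _ h => main hMA h⟩⟩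

end Pool.Agent.Results.MP_f7fc44_an.MartinNotCCC
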